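import Pool.Agent.helper31.GPR.Spec

set_option autoImplicit false

/-!
# Row gpr:PLI
-/

namespace Pool.Agent.GPR

open Pool.Agent.helper25.QST

theorem PLI (hPLR : PLR_stmt) : PLI_stmt := by
  intro d c ι _ t p hp h1 h0
  have hli : LinearIndependent (ZMod 2) p := by
    rw [Fintype.linearIndependent_iff]
    intro g hg j
    have h2 := congrFun hg (t j)
    rw [Finset.sum_apply, Finset.sum_eq_single j] at h2
    · rw [Pi.smul_apply, h1 j, smul_eq_mul, mul_one, Pi.zero_apply] at h2
      exact h2
    · intro i _ hij
      rw [Pi.smul_apply, h0 i j hij, smul_zero]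
    · intro h
      exact absurd (Finset.mem_univ j) h
  have hli2 : LinearIndependent (ZMod 2) (fun i => (⟨p i, hp i⟩ : Mm d c)) := by
    refine LinearIndependent.of_comp (Mm d c).subtype ?_
    exact hli
  exact le_trans hli2.fintype_card_le_finrank (hPLR d c)

end Pool.Agent.GPR
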